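import Pool.Agent.H61X.Reg
import Pool.Agent.ETCO.Bridge

/-!
Theorem X (helper61, note 3145), part 6: splitting of all forms along the blocks; the regular
element from `ETCO.SRF` (with helper11's `ETCO/Bridge`).
-/

set_option linter.unusedSectionVars false
set_option linter.unusedVariables false

namespace Pool.Agent.H61X

open Pool.Agent.ESL Pool.Agent.H34B
open scoped BigOperators

variable {V : Type} [AddCommGroup V] [Module (ZMod 2) V] [Finite V] {R : FS V}

theorem blk_iff {E : Submodule (ZMod 2) (D V)} : Blk R E ↔ ETCO.Block R E := by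
  constructor
  · rintro (⟨w, h1, h2⟩ | ⟨hP, η, h1, θ, h2, h3, h4, h5, h6⟩)
    · exact Or.inl ⟨w, h2, h1⟩
    · exact Or.inr ⟨fun b hb hb0 x h hh => hP b hb hb0 x h hh, η, θ, h1, h2, h3, h4, h5, h6⟩
  · rintro (⟨w, h1, h2⟩ | ⟨hP, η, θ, h1, h2, h3, h4, h5, h6⟩)
    · exact Or.inl ⟨w, h2, h1⟩
    · exact Or.inr ⟨fun b hb hb0 x h hh => hP b hb hb0 x h hh, η, h1, θ, h2, h3, h4, h5, h6⟩

theorem domB_of (h : ETCO.DomB R) : DomB R := by
  intro b hb hx
  obtain ⟨E, hE, hc⟩ := h b hb hx
  exact ⟨E, blk_iff.2 hE, hc⟩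

theorem refl_of (hA : IsAlt R) (hU : Univ R) : ETCO.Refl R := fun _ h => refl_of_univ hA hU h

/-- every form of `R` is a sum of forms of blocks -/
theorem split (hA : IsAlt R) (hU : Univ R) (hD : DomB R) :
    ∀ ρ ∈ R, ∃ (T : Finset (Submodule (ZMod 2) (D V))) (f : Submodule (ZMod 2) (D V) → Fm V),
      (∀ E ∈ T, Blk R E) ∧ (∀ E ∈ T, f E ∈ R ∧ ∀ x, f E x ∈ E) ∧ ρ = ∑ E ∈ T, f E := by
  classical
  have key : ∀ (n : ℕ) (ρ : Fm V), ρ ∈ R → rk ρ = n →
      ∃ (T : Finset (Submodule (ZMod 2) (D V))) (f : Submodule (ZMod 2) (D V) → Fm V),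
      (∀ E ∈ T, Blk R E) ∧ (∀ E ∈ T, f E ∈ R ∧ ∀ x, f E x ∈ E) ∧ ρ = ∑ E ∈ T, f E := by
    intro n
    induction n using Nat.strong_induction_on with
    | _ n ih =>
      intro ρ hρ hn
      by_cases h0 : ρ = 0
      · exact ⟨∅, fun _ => 0, by simp, by simp, by rw [h0, Finset.sum_empty]⟩
      obtain ⟨u, hu⟩ := exists_val h0
      obtain ⟨E, hE, c, hc, hc0, hdom⟩ := hD _ hu ⟨u, ρ, hρ, rfl⟩
      obtain ⟨π, hπ⟩ := exists_pr hA hU (hE.perf hA) hρ
      have hcπ : c ∈ LinearMap.range π := hπ.mem_range hc (hdom ρ hρ ⟨u, rfl⟩)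
      have hπ0 : π ≠ 0 := by
        rintro rfl
        obtain ⟨v, hv⟩ := hcπ
        exact hc0 hv.symm
      obtain ⟨T, f, h1, h2, h3⟩ := ih _ (by rw [← hn]; exact hπ.ne_rk hπ0) (ρ + π)
        (R.add_mem hρ hπ.mem) rfl
      have h4 : ρ = π + ∑ E ∈ T, f E := by rw [← h3, add_comm π, add_add_self']
      by_cases hET : E ∈ T
      · refine ⟨T, fun E' => if E' = E then f E' + π else f E', h1, ?_, ?_⟩
        · intro E' hE'
          by_cases he : E' = E
          · subst he
            simp only [if_true]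
            exact ⟨R.add_mem (h2 _ hE').1 hπ.mem, fun x => E'.add_mem ((h2 _ hE').2 x) (hπ.rg x)⟩
          · simp only [if_neg he]
            exact h2 _ hE'
        · rw [h4, ← Finset.add_sum_erase T f hET,
            ← Finset.add_sum_erase T (fun E' => if E' = E then f E' + π else f E') hET]
          simp only [if_true]
          have e : ∑ x ∈ T.erase E, (if x = E then f x + π else f x) = ∑ x ∈ T.erase E, f x := by
            apply Finset.sum_congr rfl
            intro x hx
            exact if_neg (Finset.ne_of_mem_erase hx)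
          rw [e]
          abel
      · refine ⟨insert E T, fun E' => if E' = E then π else f E', ?_, ?_, ?_⟩
        · intro E' hE'
          rcases Finset.mem_insert.1 hE' with rfl | h
          · exact hE
          · exact h1 _ h
        · intro E' hE'
          by_cases he : E' = E
          · subst he
            simp only [if_true]
            exact ⟨hπ.mem, hπ.rg⟩
          · simp only [if_neg he]
            exact h2 _ ((Finset.mem_insert.1 hE').resolve_left he)
        · rw [Finset.sum_insert hET, if_pos rfl, h4]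
          congr 1
          apply Finset.sum_congr rfl
          intro x hx
          rw [if_neg]
          rintro rfl
          exact hET hx
  intro ρ hρ
  exact key _ ρ hρ rfl

/-- sums of elements of distinct blocks vanish only trivially -/
theorem ind (hA : IsAlt R) (hL : Linked R) (hU : Univ R) (hD : DomB R)
    (T : Finset (Submodule (ZMod 2) (D V))) (hT : ∀ E ∈ T, Blk R E)
    (β : Submodule (ZMod 2) (D V) → D V) (hβ : ∀ E ∈ T, β E ∈ E) (hs : ∑ E ∈ T, β E = 0) :
    ∀ E ∈ T, β E = 0 :=
  indB_all hA hL hU hD T.card T le_rfl hT β hβ hs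

/-- **Theorem X**, regular element -/
theorem regular_of_srf (hA : IsAlt R) (hL : Linked R) (hU : Univ R) (hS : ETCO.SRF R) :
    ∃ x : V, ∀ y, (∀ k ∈ R, k x y = 0) → ∀ ρ ∈ R, ρ x = 0 → ρ y = 0 :=
  exists_regular hA hL hU (domB_of (ETCO.domB hA hL (refl_of hA hU) hS))

end Pool.Agent.H61X
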