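import Pool.Agent.H61X.ThreeI

/-!
Theorem X (helper61, note 3145), part 4: the blocks are independent.
-/

set_option linter.unusedSectionVars false
set_option linter.unusedVariables false

namespace Pool.Agent.H61X

open Pool.Agent.ESL Pool.Agent.H34B
open scoped BigOperators

variable {V : Type} [AddCommGroup V] [Module (ZMod 2) V] [Finite V] {R : FS V}

/-- at most `n` blocks are independent -/
def IndB (R : FS V) (n : ℕ) : Prop :=
  ∀ T : Finset (Submodule (ZMod 2) (D V)), T.card ≤ n → (∀ E ∈ T, Blk R E) →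
    ∀ β : Submodule (ZMod 2) (D V) → D V, (∀ E ∈ T, β E ∈ E) → ∑ E ∈ T, β E = 0 →
      ∀ E ∈ T, β E = 0

section
variable (hA : IsAlt R) (hL : Linked R) (hU : Univ R) (hD : DomB R)

include hA hU hD in
theorem domI {w₁ w₂ : Fm V} (h₁ : PAtom R w₁) (h₂ : PAtom R w₂) (hne : w₁ ≠ w₂) :
    DomI R (LinearMap.range w₁ ⊔ LinearMap.range w₂) := by
  intro β hβ hβ0 hx
  obtain ⟨E, hE, c, hc, hc0, hdom⟩ := hD β hβ0 hx
  have hβr : β ∈ LinearMap.range (w₁ + w₂) := by
    rw [range_pair hA h₁ h₂ hne]
    exact hβ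
  have hcI := hdom _ (R.add_mem h₁.1 h₂.1) hβr
  rw [range_pair hA h₁ h₂ hne] at hcI
  have hfin : ∀ w, PAtom R w → E = LinearMap.range w → ∃ w, PAtom R w ∧ ∀ r ∈ R,
      β ∈ LinearMap.range r → LinearMap.range w ≤ LinearMap.range r := by
    intro w hw he
    exact ⟨w, hw, fun r hr hβr => dom_range hA hw hr hc0 (he ▸ hc) (hdom r hr hβr)⟩
  by_cases e1 : E = LinearMap.range w₁
  · exact hfin w₁ h₁ e1
  by_cases e2 : E = LinearMap.range w₂
  · exact hfin w₂ h₂ e2
  obtain ⟨c₁, hc₁, c₂, hc₂, hs⟩ := Submodule.mem_sup.1 hcI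
  have B₁ : Blk R (LinearMap.range w₁) := Or.inl ⟨w₁, h₁, rfl⟩
  have B₂ : Blk R (LinearMap.range w₂) := Or.inl ⟨w₂, h₂, rfl⟩
  have z1 : c₁ ≠ 0 := by
    rintro rfl
    rw [zero_add] at hs
    exact hc0 (hE.disj hA B₂ e2 hc (hs ▸ hc₂))
  have z2 : c₂ ≠ 0 := by
    rintro rfl
    rw [add_zero] at hs
    exact hc0 (hE.disj hA B₁ e1 hc (hs ▸ hc₁))
  have n12 : LinearMap.range w₁ ≠ LinearMap.range w₂ := by
    intro he
    exact hne (atom_eq hA h₁ h₂ z1 hc₁ (he ▸ hc₁))
  obtain ⟨-, -, w, -, -, hw, -, -, he, -⟩ := three_atoms hA hU B₁ B₂ hE n12 (Ne.symm e1)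
    (Ne.symm e2) hc₁ hc₂ hc z1 z2 hc0 hs
  exact hfin w hw he

include hA hL hU hD in
/-- three distinct blocks are independent -/
theorem no_three {E₁ E₂ E₃ : Submodule (ZMod 2) (D V)} (B₁ : Blk R E₁) (B₂ : Blk R E₂)
    (B₃ : Blk R E₃) (n12 : E₁ ≠ E₂) (n13 : E₁ ≠ E₃) (n23 : E₂ ≠ E₃) {b₁ b₂ b₃ : D V} (h1 : b₁ ∈ E₁)
    (h2 : b₂ ∈ E₂) (h3 : b₃ ∈ E₃) (z1 : b₁ ≠ 0) (z2 : b₂ ≠ 0) (z3 : b₃ ≠ 0)
    (hs : b₁ + b₂ = b₃) : False := by
  obtain ⟨w₁, w₂, w₃, a1, a2, a3, e1, e2, e3, hle⟩ := three_atoms hA hU B₁ B₂ B₃ n12 n13 n23 h1 h2 h3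
    z1 z2 z3 hs
  have m12 : w₁ ≠ w₂ := by
    rintro rfl
    exact n12 (e1.trans e2.symm)
  have m13 : w₁ ≠ w₃ := by
    rintro rfl
    exact n13 (e1.trans e3.symm)
  have m23 : w₂ ≠ w₃ := by
    rintro rfl
    exact n23 (e2.trans e3.symm)
  exact no_tripleI hA hL a1 a2 a3 m12 (domI hA hU hD a1 a2 m12) m13 m23 hle

include hA hL hU hD in
theorem indB_all : ∀ n, IndB R n := by
  classical
  intro n
  induction n with
  | zero =>
    intro T hT hTB β hβ hs E hE
    have : T = ∅ := Finset.card_eq_zero.1 (Nat.le_zero.1 hT)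
    rw [this] at hE
    simp at hE
  | succ n ih =>
    intro T hT hTB β hβ hs w hw
    by_contra hcon
    -- all terms may be assumed nonzero
    have hnz : ∀ w ∈ T, β w ≠ 0 := by
      intro a ha h0
      have h1 := ih (T.erase a) (by
        have := Finset.card_erase_of_mem ha
        omega) (fun w hw => hTB w (Finset.mem_of_mem_erase hw)) β
        (fun w hw => hβ w (Finset.mem_of_mem_erase hw)) (by
          rw [← Finset.add_sum_erase T β ha, h0, zero_add] at hs
          exact hs)
      apply hcon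
      by_cases hwa : w = a
      · rw [hwa, h0]
      · exact h1 w (Finset.mem_erase.2 ⟨hwa, hw⟩)
    -- a second block
    have h1 : ∃ b ∈ T, b ≠ w := by
      by_contra hc
      push Not at hc
      have : T = {w} := Finset.eq_singleton_iff_unique_mem.2 ⟨hw, hc⟩
      rw [this, Finset.sum_singleton] at hs
      exact hcon hs
    obtain ⟨b, hb, hbw⟩ := h1
    have hbT : b ∈ T.erase w := Finset.mem_erase.2 ⟨hbw, hb⟩
    -- the remaining blocks
    let T' := (T.erase w).erase b
    have hT'c : T'.card + 2 = T.card := by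
      have h1 := Finset.card_erase_add_one hw
      have h2 := Finset.card_erase_add_one hbT
      show ((T.erase w).erase b).card + 2 = T.card
      omega
    have hT'sub : ∀ a ∈ T', a ∈ T ∧ a ≠ w ∧ a ≠ b := by
      intro a ha
      have h1 := Finset.mem_erase.1 ha
      have h2 := Finset.mem_erase.1 h1.2
      exact ⟨h2.2, h2.1, h1.1⟩
    have hsum : β w + β b = ∑ a ∈ T', β a := by
      have h2 : β w + (β b + ∑ a ∈ T', β a) = 0 := by
        rw [← hs, ← Finset.add_sum_erase T β hw, ← Finset.add_sum_erase _ β hbT]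
      rw [← add_assoc] at h2
      exact eq_of_add h2
    have hwB := hTB w hw
    have hbB := hTB b hb
    have hne0 : β w + β b ≠ 0 := by
      intro h0
      have h3 : β w = β b := eq_of_add h0
      exact hnz w hw (hwB.disj hA hbB hbw.symm (hβ w hw) (h3 ▸ hβ b hb))
    -- forms of minimal rank
    have hex : ∀ a : Submodule (ZMod 2) (D V), ∃ σ, a ∈ T → MinF R a (β a) σ := by
      intro a
      by_cases ha : a ∈ T
      · obtain ⟨σ, hσ⟩ := exists_min hA (hTB a ha) (hβ a ha) (hnz a ha)
        exact ⟨σ, fun _ => hσ⟩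
      · exact ⟨0, fun h => absurd h ha⟩
    choose σ hσ using hex
    have m1 := hσ w hw
    have m2 := hσ b hb
    -- the sum of the remaining forms
    set s : Fm V := ∑ a ∈ T', σ a with hsdef
    have hsR : s ∈ R := Submodule.sum_mem _ fun a ha => (hσ a (hT'sub a ha).1).mem
    have hsa : ∀ u, s u = ∑ a ∈ T', σ a u := fun u => by rw [hsdef, LinearMap.sum_apply]
    have hsle : ∀ a ∈ T', LinearMap.range (σ a) ≤ LinearMap.range s := by
      intro a ha
      rw [range_le_iff (hA _ (hσ a (hT'sub a ha).1).mem) (hA _ hsR)]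
      intro q hq
      rw [LinearMap.mem_ker] at hq ⊢
      exact ih T' (by omega) (fun a ha => hTB a (hT'sub a ha).1) (fun a => σ a q)
        (fun a ha => (hσ a (hT'sub a ha).1).rg q) (by rw [← hsa, hq]) a ha
    have hmem : β w + β b ∈ LinearMap.range s := by
      rw [hsum]
      exact Submodule.sum_mem _ fun a ha => hsle a ha (hσ a (hT'sub a ha).1).im
    have hmem2 : β w + β b ∈ LinearMap.range (σ w + σ b) :=
      mem_sum_range hA hU (hwB.perf hA) (hbB.perf hA)
        (fun c h h' => hwB.disj hA hbB hbw.symm h h') m1.mem m2.mem m1.rg m2.rg m1.im m2.im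
    obtain ⟨x, hx⟩ := hmem2
    obtain ⟨E, hE, c, hc, hc0, hdom⟩ := hD _ hne0 ⟨x, _, R.add_mem m1.mem m2.mem, hx⟩
    obtain ⟨u, hu⟩ := hdom _ (R.add_mem m1.mem m2.mem) ⟨x, hx⟩
    obtain ⟨v, hv⟩ := hdom _ hsR hmem
    rw [LinearMap.add_apply] at hu
    have hor : E = w ∨ E = b := by
      by_contra hn
      push Not at hn
      have z1 : σ w u ≠ 0 := by
        intro h
        rw [h, zero_add] at hu
        exact hc0 (hE.disj hA hbB hn.2 hc (hu ▸ m2.rg u))
      have z2 : σ b u ≠ 0 := by
        intro h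
        rw [h, add_zero] at hu
        exact hc0 (hE.disj hA hwB hn.1 hc (hu ▸ m1.rg u))
      exact no_three hA hL hU hD hwB hbB hE hbw.symm (Ne.symm hn.1) (Ne.symm hn.2) (m1.rg u)
        (m2.rg u) hc z1 z2 hc0 hu
    have hET' : E ∉ T' := by
      intro h
      rcases hor with h1 | h1
      · exact (hT'sub E h).2.1 h1
      · exact (hT'sub E h).2.2 h1
    have h5 := ih (insert E T') (by rw [Finset.card_insert_of_notMem hET']; omega)
      (by
        intro t ht
        rcases Finset.mem_insert.1 ht with rfl | ht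
        · exact hE
        · exact hTB t (hT'sub t ht).1) (fun t => if t = E then c else σ t v)
      (by
        intro t ht
        rcases Finset.mem_insert.1 ht with rfl | ht
        · show (if t = t then c else σ t v) ∈ _
          rw [if_pos rfl]; exact hc
        · have : t ≠ E := fun he => hET' (he ▸ ht)
          show (if t = E then c else σ t v) ∈ _
          rw [if_neg this]; exact (hσ t (hT'sub t ht).1).rg v)
      (by
        rw [Finset.sum_insert hET', if_pos rfl]
        have e2 : ∑ t ∈ T', (if t = E then c else σ t v) = ∑ t ∈ T', σ t v := by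
          apply Finset.sum_congr rfl
          intro t ht
          exact if_neg (fun he : t = E => hET' (he ▸ ht))
        rw [e2, ← hsa, hv, add_self'])
    have h6 := h5 E (Finset.mem_insert_self _ _)
    rw [if_pos rfl] at h6
    exact hc0 h6

/-- simultaneous solutions -/
theorem solveB (hI : ∀ n, IndB R n) (T : Finset (Submodule (ZMod 2) (D V)))
    (hT : ∀ E ∈ T, Blk R E) (y : Submodule (ZMod 2) (D V) → V) :
    ∃ x, ∀ E ∈ T, ∀ φ ∈ E, φ x = φ (y E) := by
  classical
  induction T using Finset.induction_on with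
  | empty => exact ⟨0, by simp⟩
  | insert E T hET ih =>
    obtain ⟨x, hx⟩ := ih fun E' h => hT E' (Finset.mem_insert_of_mem h)
    -- correct `x` by an element of the common kernel of the blocks in `T`
    have hdis : Disjoint E (⨆ E' ∈ T, E') := by
      rw [Submodule.disjoint_def]
      intro φ hφ hφ'
      obtain ⟨f, hf⟩ := (Submodule.mem_iSup_finset_iff_exists_sum (fun E' => E') φ).1 hφ'
      have h5 := hI (insert E T).card (insert E T) le_rfl hT
        (fun E' => if E' = E then φ else (f E' : D V)) (by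
          intro E' h
          show (if E' = E then φ else (f E' : D V)) ∈ _
          by_cases he : E' = E
          · rw [if_pos he, he]; exact hφ
          · rw [if_neg he]; exact (f E').2) (by
          rw [Finset.sum_insert hET, if_pos rfl]
          have e2 : ∑ t ∈ T, (if t = E then φ else (f t : D V)) = ∑ t ∈ T, (f t : D V) := by
            apply Finset.sum_congr rfl
            intro t ht
            exact if_neg (fun he : t = E => hET (he ▸ ht))
          rw [e2, hf, add_self']) E (Finset.mem_insert_self _ _)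
      rw [if_pos rfl] at h5
      exact h5
    have htop : co E ⊔ co (⨆ E' ∈ T, E') = ⊤ := by
      have e1 : an (co E ⊔ co (⨆ E' ∈ T, E')) = ⊥ := by
        rw [an_sup, an_co, an_co]
        exact disjoint_iff.1 hdis
      rw [← co_an (co E ⊔ co (⨆ E' ∈ T, E')), e1]
      rw [eq_top_iff]
      intro v _ φ hφ
      rw [(Submodule.mem_bot (ZMod 2)).1 hφ]
      rfl
    obtain ⟨a, ha, z, hz, e⟩ := Submodule.mem_sup.1 (by rw [htop]; trivial :
      x + y E ∈ co E ⊔ co (⨆ E' ∈ T, E'))
    refine ⟨x + z, ?_⟩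
    intro E' hE' φ hφ
    rcases Finset.mem_insert.1 hE' with rfl | h
    · have h1 : φ (a + z) = φ (x + y E') := by rw [e]
      rw [map_add, ha φ hφ, zero_add, map_add] at h1
      rw [map_add, h1, add_add_self]
    · have h1 : φ z = 0 := hz φ (Submodule.mem_iSup_of_mem E' (Submodule.mem_iSup_of_mem h hφ))
      rw [map_add, h1, add_zero, hx E' h φ hφ]

end

end Pool.Agent.H61X
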