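import Pool.Agent.H34B.Dom

/-!
Theorem X (helper61, note 3145), part 1: perfect blocks and the splitting of forms.
Problem MP_d26ff6_al, `-1 = 1`.
-/

set_option linter.unusedSectionVars false
set_option linter.unusedVariables false

namespace Pool.Agent.H61X

open Pool.Agent.ESL Pool.Agent.H34B
open scoped BigOperators

variable {V : Type} [AddCommGroup V] [Module (ZMod 2) V] [Finite V]

/-- `E = Y^⊥` is a perfect block: `P_b` is `Y`-periodic for all `0 ≠ b ∈ E` -/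
def Perf (R : FS V) (E : Submodule (ZMod 2) (D V)) : Prop :=
  ∀ b ∈ E, b ≠ 0 → ∀ x, ∀ h ∈ co E, b ∈ Lx R x → b ∈ Lx R (x + h)

/-- blocks of extension type -/
def BlkT (R : FS V) (E : Submodule (ZMod 2) (D V)) : Prop :=
  Perf R E ∧ ∃ η ∈ E, ∃ θ ∈ E, η ≠ 0 ∧ θ ≠ 0 ∧ θ ≠ η ∧ ∀ μ ∈ E, wdL η μ ∈ R

/-- blocks of local type -/
def BlkA (R : FS V) (E : Submodule (ZMod 2) (D V)) : Prop :=
  ∃ w, PAtom R w ∧ E = LinearMap.range w

/-- blocks -/
def Blk (R : FS V) (E : Submodule (ZMod 2) (D V)) : Prop := BlkA R E ∨ BlkT R E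

/-- every functional in some `L_x` dominates an element of a block -/
def DomB (R : FS V) : Prop :=
  ∀ b : D V, b ≠ 0 → (∃ x, b ∈ Lx R x) →
    ∃ E, Blk R E ∧ ∃ c ∈ E, c ≠ 0 ∧ ∀ r ∈ R, b ∈ LinearMap.range r → c ∈ LinearMap.range r

/-- a form which is pointwise in `L_x` is in `R` -/
theorem refl_of_univ {R : FS V} (hA : IsAlt R) (hU : Univ R) {k : Fm V}
    (h : ∀ x, k x ∈ Lx R x) : k ∈ R := by
  apply hU k
  · intro x
    obtain ⟨l, hl, e⟩ := h x
    rw [← e, hA l hl x]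
  · intro x y hxy
    obtain ⟨l, hl, e⟩ := h x
    rw [← e, hxy l hl]

theorem symm_of {R : FS V} (hA : IsAlt R) {k : Fm V} (hk : k ∈ R) (x y : V) : k x y = k y x := by
  have h := hA k hk (x + y)
  have e : k (x + y) (x + y) = k x x + k x y + (k y x + k y y) := by
    rw [map_add k, LinearMap.add_apply, map_add, map_add]
  rw [e, hA k hk x, hA k hk y, zero_add, add_zero] at h
  exact eq_of_add h

theorem mem_of_co {E : Submodule (ZMod 2) (D V)} {φ : D V} (h : ∀ x ∈ co E, φ x = 0) : φ ∈ E := by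
  rw [← an_co E]
  exact h

variable {R : FS V}

theorem PAtom.perf (hA : IsAlt R) {w : Fm V} (hw : PAtom R w) : Perf R (LinearMap.range w) := by
  intro b hb hb0 x h hh hx
  have h1 : w x = b := hw.2.2 x b hb hb0 hx
  refine ⟨w, hw.1, ?_⟩
  have h2 : w h = 0 := by
    apply LinearMap.ext
    intro z
    rw [symm_of hA hw.1]
    exact hh _ ⟨z, rfl⟩
  rw [map_add, h1, h2, add_zero]

theorem Blk.perf (hA : IsAlt R) {E : Submodule (ZMod 2) (D V)} (h : Blk R E) : Perf R E := by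
  rcases h with ⟨w, hw, rfl⟩ | h
  · exact PAtom.perf hA hw
  · exact h.1

/-- in a perfect block, `L_h ∩ E = 0` for `h ∈ Y` -/
theorem Perf.zero {E : Submodule (ZMod 2) (D V)} (h : Perf R E) {x : V} (hx : x ∈ co E) {b : D V}
    (hb : b ∈ E) (hbx : b ∈ Lx R x) : b = 0 := by
  by_contra h0
  have h1 := h b hb h0 x x hx hbx
  rw [add_self'] at h1
  obtain ⟨k, hk, e⟩ := h1
  exact h0 (by rw [← e, map_zero])

theorem Perf.inf {E E' : Submodule (ZMod 2) (D V)} (h : Perf R E) (h' : Perf R E') :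
    Perf R (E ⊓ E') := by
  intro b hb hb0 x y hy hx
  have h1 : y ∈ co E ⊔ co E' := by
    have e : co E ⊔ co E' = co (E ⊓ E') := by
      have e1 : an (co E ⊔ co E') = E ⊓ E' := by rw [an_sup, an_co, an_co]
      rw [← e1, co_an]
    rw [e]
    exact hy
  obtain ⟨u, hu, v, hv, rfl⟩ := Submodule.mem_sup.1 h1
  rw [← add_assoc]
  exact h' b hb.2 hb0 _ v hv (h b hb.1 hb0 x u hu hx)

/-- the splitting of a form with respect to a perfect block -/
structure IsPr (R : FS V) (E : Submodule (ZMod 2) (D V)) (ρ π : Fm V) : Prop where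
  mem : π ∈ R
  rg : ∀ x, π x ∈ E
  ker : ∀ h ∈ co E, π h = 0
  eq : ∀ q, ρ q ∈ E → π q = ρ q
  sup : ∀ x, ∃ h ∈ co E, ρ (x + h) ∈ E

theorem exists_compl {N Y : Submodule (ZMod 2) V} (h : Y ⊔ N = ⊤) :
    ∃ C ≤ Y, IsCompl C N := by
  obtain ⟨C, hC⟩ := Submodule.exists_isCompl (Y ⊓ N)
  refine ⟨C ⊓ Y, inf_le_right, ?_, ?_⟩
  · rw [disjoint_iff]
    have h1 : C ⊓ Y ⊓ N = (Y ⊓ N) ⊓ C := by
      rw [inf_assoc, inf_comm]
    rw [h1]
    exact disjoint_iff.1 hC.disjoint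
  · rw [codisjoint_iff]
    have h1 : (Y ⊓ N) ⊔ C ⊓ Y = Y := by
      rw [← sup_inf_assoc_of_le C (inf_le_left : Y ⊓ N ≤ Y)]
      rw [codisjoint_iff.1 hC.codisjoint, top_inf_eq]
    rw [eq_top_iff, ← h]
    refine sup_le ?_ le_sup_right
    conv_lhs => rw [← h1]
    exact sup_le (inf_le_right.trans le_sup_right) le_sup_left

theorem exists_pr (hA : IsAlt R) (hU : Univ R) {E : Submodule (ZMod 2) (D V)} (hP : Perf R E)
    {ρ : Fm V} (hρ : ρ ∈ R) : ∃ π, IsPr R E ρ π := by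
  classical
  set Y := co E with hY
  set N := co (Y.map ρ) with hN
  have hNE : ∀ q, q ∈ N ↔ ρ q ∈ E := by
    intro q
    constructor
    · intro h
      apply mem_of_co
      intro x hx
      rw [symm_of hA hρ]
      exact h _ (Submodule.mem_map_of_mem hx)
    · intro h φ hφ
      obtain ⟨x, hx, rfl⟩ := Submodule.mem_map.1 hφ
      rw [symm_of hA hρ]
      exact hx _ h
  have hz : ∀ h ∈ Y, ρ h ∈ E → ρ h = 0 := fun h hh h1 => hP.zero hh h1 ⟨ρ, hρ, rfl⟩
  have hsup : Y ⊔ N = ⊤ := by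
    apply Submodule.eq_top_of_finrank_eq
    have h1 := Submodule.finrank_sup_add_finrank_inf_eq Y N
    have h2 := finrank_co (Y.map ρ)
    rw [← hN] at h2
    have h3 := LinearMap.finrank_range_add_finrank_ker (ρ.domRestrict Y)
    have h4 : LinearMap.range (ρ.domRestrict Y) = Y.map ρ := LinearMap.range_domRestrict Y ρ
    have h5 : Module.finrank (ZMod 2) (LinearMap.ker (ρ.domRestrict Y)) =
        Module.finrank (ZMod 2) (Y ⊓ N : Submodule (ZMod 2) V) := by
      have e : (LinearMap.ker (ρ.domRestrict Y)).map Y.subtype = Y ⊓ N := by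
        ext z
        constructor
        · rintro ⟨⟨y, hy⟩, h6, rfl⟩
          refine ⟨hy, (hNE y).2 ?_⟩
          have h7 : ρ y = 0 := h6
          rw [h7]
          exact E.zero_mem
        · rintro ⟨hz1, hz2⟩
          exact ⟨⟨z, hz1⟩, hz z hz1 ((hNE z).1 hz2), rfl⟩
      rw [← e]
      exact (Submodule.finrank_map_subtype_eq Y _).symm
    rw [h4, h5] at h3
    omega
  obtain ⟨C, hCY, hC⟩ := exists_compl hsup
  let p := N.projectionOnto C hC.symm
  let π : Fm V := ρ ∘ₗ N.subtype ∘ₗ p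
  have hπ : ∀ x, π x = ρ (p x : V) := fun _ => rfl
  have hdec : ∀ x, ∃ c ∈ C, x + c = (p x : V) := by
    intro x
    obtain ⟨c, hc, n, hn, e⟩ := Submodule.mem_sup.1 (by
      rw [codisjoint_iff.1 hC.codisjoint]; trivial : x ∈ C ⊔ N)
    refine ⟨c, hc, ?_⟩
    have h1 : p x = p c + p n := by rw [← map_add, e]
    have h2 : p c = 0 := Submodule.projectionOnto_apply_right hC.symm ⟨c, hc⟩
    have h3 : (p n : V) = n := by
      have := Submodule.projectionOnto_apply_left hC.symm ⟨n, hn⟩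
      exact congrArg Subtype.val this
    rw [h1, h2, zero_add, h3, ← e]
    rw [add_comm c n, add_add_self']
  have hmemN : ∀ x, ρ (p x : V) ∈ E := fun x => (hNE _).1 (p x).2
  refine ⟨π, ?_, hmemN, ?_, ?_, ?_⟩
  · apply refl_of_univ hA hU
    intro x
    obtain ⟨c, hc, e⟩ := hdec x
    rw [hπ]
    by_cases h0 : ρ (p x : V) = 0
    · rw [h0]
      exact Submodule.zero_mem _
    · have h1 := hP _ (hmemN x) h0 (p x : V) c (hCY hc) ⟨ρ, hρ, rfl⟩
      rw [← e, add_add_self'] at h1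
      rwa [← e]
  · intro h hh
    obtain ⟨c, hc, e⟩ := hdec h
    rw [hπ]
    apply hz _ _ (hmemN h)
    rw [← e]
    exact Y.add_mem hh (hCY hc)
  · intro q hq
    have h3 : (p q : V) = q := by
      have := Submodule.projectionOnto_apply_left hC.symm ⟨q, (hNE q).2 hq⟩
      exact congrArg Subtype.val this
    rw [hπ, h3]
  · intro x
    obtain ⟨c, hc, e⟩ := hdec x
    refine ⟨c, hCY hc, ?_⟩
    rw [e]
    exact hmemN x

section pr

variable {E : Submodule (ZMod 2) (D V)} {ρ π : Fm V}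

theorem IsPr.val (h : IsPr R E ρ π) (x : V) : ∃ z ∈ co E, π x = ρ (x + z) ∧ ρ (x + z) ∈ E := by
  obtain ⟨z, hz, h1⟩ := h.sup x
  refine ⟨z, hz, ?_, h1⟩
  rw [← h.eq _ h1, map_add, h.ker z hz, add_zero]

theorem IsPr.unique {π' : Fm V} (h : IsPr R E ρ π) (h' : IsPr R E ρ π') : π = π' := by
  apply LinearMap.ext
  intro x
  obtain ⟨z, hz, h1⟩ := h.sup x
  have e1 : π x = ρ (x + z) := by rw [← h.eq _ h1, map_add, h.ker z hz, add_zero]
  have e2 : π' x = ρ (x + z) := by rw [← h'.eq _ h1, map_add, h'.ker z hz, add_zero]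
  rw [e1, e2]

theorem ker_of_rg (hA : IsAlt R) {σ : Fm V} (hσ : σ ∈ R) (h : ∀ x, σ x ∈ E) {z : V}
    (hz : z ∈ co E) : σ z = 0 := by
  apply LinearMap.ext
  intro u
  rw [symm_of hA hσ]
  exact hz _ (h u)

theorem IsPr.add (hA : IsAlt R) (h : IsPr R E ρ π) {σ : Fm V} (hσ : σ ∈ R)
    (hr : ∀ x, σ x ∈ E) : IsPr R E (ρ + σ) (π + σ) where
  mem := R.add_mem h.mem hσ
  rg x := E.add_mem (h.rg x) (hr x)
  ker z hz := by rw [LinearMap.add_apply, h.ker z hz, ker_of_rg hA hσ hr hz, add_zero]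
  eq q hq := by
    have h1 : ρ q ∈ E := by
      have h2 := E.add_mem hq (hr q)
      rwa [LinearMap.add_apply, add_add_self'] at h2
    rw [LinearMap.add_apply, LinearMap.add_apply, h.eq q h1]
  sup x := by
    obtain ⟨z, hz, h1⟩ := h.sup x
    exact ⟨z, hz, E.add_mem h1 (hr _)⟩

theorem IsPr.self (hA : IsAlt R) {σ : Fm V} (hσ : σ ∈ R) (hr : ∀ x, σ x ∈ E) :
    IsPr R E σ σ where
  mem := hσ
  rg := hr
  ker z hz := ker_of_rg hA hσ hr hz
  eq q hq := rfl
  sup x := ⟨0, Submodule.zero_mem _, hr _⟩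

/-- a form with range in a disjoint subspace splits trivially -/
theorem pr_zero (hA : IsAlt R) (hU : Univ R) (hP : Perf R E) {σ : Fm V} (hσ : σ ∈ R)
    (hd : ∀ x, σ x ∈ E → σ x = 0) : IsPr R E σ 0 := by
  obtain ⟨π, h⟩ := exists_pr hA hU hP hσ
  have h0 : π = 0 := by
    apply LinearMap.ext
    intro x
    obtain ⟨z, hz, h1, h2⟩ := h.val x
    rw [h1, hd _ h2]
    rfl
  rwa [h0] at h

theorem IsPr.range_le (h : IsPr R E ρ π) : LinearMap.range π ≤ LinearMap.range ρ := by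
  rintro _ ⟨x, rfl⟩
  obtain ⟨z, hz, h1, h2⟩ := h.val x
  exact ⟨x + z, h1.symm⟩

theorem IsPr.range_le' (h : IsPr R E ρ π) : LinearMap.range (ρ + π) ≤ LinearMap.range ρ :=
  range_add_le h.range_le

/-- `range (ρ + π)` and `E` are disjoint -/
theorem IsPr.disj (h : IsPr R E ρ π) (x : V) (hx : (ρ + π) x ∈ E) : (ρ + π) x = 0 := by
  have h1 : ρ x ∈ E := by
    have h2 := E.add_mem hx (h.rg x)
    rwa [LinearMap.add_apply, add_add_self'] at h2
  rw [LinearMap.add_apply, h.eq x h1, add_self']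

theorem IsPr.mem_range (h : IsPr R E ρ π) {b : D V} (hb : b ∈ E) (hr : b ∈ LinearMap.range ρ) :
    b ∈ LinearMap.range π := by
  obtain ⟨x, rfl⟩ := hr
  exact ⟨x, h.eq x hb⟩

/-- the rank of a form -/
noncomputable def rk (ρ : Fm V) : ℕ := Module.finrank (ZMod 2) (LinearMap.range ρ)

theorem IsPr.rk_eq (h : IsPr R E ρ π) : rk ρ = rk π + rk (ρ + π) := by
  have h1 := Submodule.finrank_sup_add_finrank_inf_eq (LinearMap.range π) (LinearMap.range (ρ + π))
  have h2 : LinearMap.range π ⊓ LinearMap.range (ρ + π) = ⊥ := by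
    rw [eq_bot_iff]
    rintro _ ⟨⟨y, hy⟩, ⟨x, rfl⟩⟩
    exact h.disj x (hy ▸ h.rg y)
  have h3 : LinearMap.range π ⊔ LinearMap.range (ρ + π) = LinearMap.range ρ := by
    apply le_antisymm (sup_le h.range_le h.range_le')
    rintro _ ⟨x, rfl⟩
    have e : ρ x = π x + (ρ + π) x := by
      rw [LinearMap.add_apply, add_comm (ρ x), add_add_self]
    rw [e]
    exact Submodule.add_mem_sup ⟨x, rfl⟩ ⟨x, rfl⟩
  rw [h2, h3, finrank_bot, add_zero] at h1
  exact h1

theorem IsPr.ne_rk (h : IsPr R E ρ π) (h0 : π ≠ 0) : rk (ρ + π) < rk ρ := by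
  have h1 := h.rk_eq
  have h2 : 0 < rk π := by
    obtain ⟨x, hx⟩ := exists_val h0
    apply Nat.pos_of_ne_zero
    intro h3
    have h4 : LinearMap.range π = ⊥ := Submodule.finrank_eq_zero.1 h3
    exact h0 (LinearMap.range_eq_bot.1 h4)
  omega

theorem rk_add_le (ρ σ : Fm V) : rk (ρ + σ) ≤ rk ρ + rk σ := by
  have h1 := Submodule.finrank_sup_add_finrank_inf_eq (LinearMap.range ρ) (LinearMap.range σ)
  have h2 : LinearMap.range (ρ + σ) ≤ LinearMap.range ρ ⊔ LinearMap.range σ := by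
    rintro _ ⟨x, rfl⟩
    exact Submodule.add_mem_sup ⟨x, rfl⟩ ⟨x, rfl⟩
  have h3 := Submodule.finrank_mono h2
  unfold rk
  omega

end pr

end Pool.Agent.H61X
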