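import Pool.Agent.H61X.IndB

/-!
Theorem X (helper61, note 3145), part 5: if every functional dominates an element of a block, there
is a regular element.
-/

set_option linter.unusedSectionVars false
set_option linter.unusedVariables false

namespace Pool.Agent.H61X

open Pool.Agent.ESL Pool.Agent.H34B
open scoped BigOperators

variable {V : Type} [AddCommGroup V] [Module (ZMod 2) V] [Finite V] {R : FS V}

/-- `z` is in general position with respect to the block `E` -/
def Good (R : FS V) (E : Submodule (ZMod 2) (D V)) (z : V) : Prop :=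
  (∃ w, PAtom R w ∧ E = LinearMap.range w ∧ w z ≠ 0) ∨
    ∃ η ∈ E, (∀ μ ∈ E, wdL η μ ∈ R) ∧ η z = 1

theorem exists_good {E : Submodule (ZMod 2) (D V)} (h : Blk R E) : ∃ z, Good R E z := by
  rcases h with ⟨w, hw, rfl⟩ | ⟨hP, η, hη, θ, hθ, hη0, hθ0, hne, hwd⟩
  · obtain ⟨z, hz⟩ := exists_val hw.2.1
    exact ⟨z, Or.inl ⟨w, hw, rfl, hz⟩⟩
  · by_contra hc
    push Not at hc
    apply hη0
    apply LinearMap.ext
    intro z
    apply zm_ne'
    intro h1
    exact hc z (Or.inr ⟨η, hη, hwd, h1⟩)

theorem Good.congr (hA : IsAlt R) {E : Submodule (ZMod 2) (D V)} {z x : V} (h : Good R E z)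
    (hx : ∀ φ ∈ E, φ x = φ z) : Good R E x := by
  rcases h with ⟨w, hw, rfl, hz⟩ | ⟨η, hη, hwd, h1⟩
  · refine Or.inl ⟨w, hw, rfl, ?_⟩
    have e : w x = w z := by
      apply LinearMap.ext
      intro u
      rw [symm_of hA hw.1, symm_of hA hw.1 z]
      exact hx _ ⟨u, rfl⟩
    rwa [e]
  · exact Or.inr ⟨η, hη, hwd, by rw [hx η hη, h1]⟩

/-- an element in general position with respect to all blocks is regular -/
theorem regular_of_good (hA : IsAlt R) (hU : Univ R) (hD : DomB R) {x : V}
    (hx : ∀ E, Blk R E → Good R E x) {y : V} (hy : ∀ k ∈ R, k x y = 0) :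
    ∀ ρ ∈ R, ρ x = 0 → ρ y = 0 := by
  have key : ∀ (n : ℕ) (ρ : Fm V), ρ ∈ R → rk ρ = n → ρ x = 0 → ρ y = 0 := by
    intro n
    induction n using Nat.strong_induction_on with
    | _ n ih =>
      intro ρ hρ hn hρx
      by_cases h0 : ρ = 0
      · rw [h0]
        rfl
      obtain ⟨u, hu⟩ := exists_val h0
      obtain ⟨E, hE, c, hc, hc0, hdom⟩ := hD _ hu ⟨u, ρ, hρ, rfl⟩
      obtain ⟨π, hπ⟩ := exists_pr hA hU (hE.perf hA) hρ
      have hcπ : c ∈ LinearMap.range π := hπ.mem_range hc (hdom ρ hρ ⟨u, rfl⟩)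
      have hπ0 : π ≠ 0 := by
        rintro rfl
        obtain ⟨v, hv⟩ := hcπ
        exact hc0 hv.symm
      have e1 : (ρ + π) x = 0 := hπ.disj x (by
        rw [LinearMap.add_apply, hρx, zero_add]
        exact hπ.rg x)
      have e2 : π x = 0 := by
        rw [LinearMap.add_apply, hρx, zero_add] at e1
        exact e1
      have e3 : (ρ + π) y = 0 := ih _ (by rw [← hn]; exact hπ.ne_rk hπ0) (ρ + π)
        (R.add_mem hρ hπ.mem) rfl e1
      have e4 : π y = 0 := by
        rcases hx E hE with ⟨w, hw, rfl, hwx⟩ | ⟨η, hη, hwd, h1⟩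
        · exfalso
          rw [atom_uni hw hπ.mem hπ.rg hπ0] at e2
          exact hwx e2
        · have h2 : y + η y • x ∈ co E := by
            intro μ hμ
            have h3 := hy _ (hwd μ hμ)
            rw [wdL_apply₂, h1, one_mul] at h3
            rw [map_add, map_smul, smul_eq_mul, mul_comm, h3]
          have h4 := hπ.ker _ h2
          rw [map_add, map_smul, e2, smul_zero, add_zero] at h4
          exact h4
      rw [LinearMap.add_apply, e4, add_zero] at e3
      exact e3
  intro ρ hρ
  exact key _ ρ hρ rfl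

/-- **Theorem X**, form language: if every functional dominates an element of a block, there is a
regular element. -/
theorem exists_regular (hA : IsAlt R) (hL : Linked R) (hU : Univ R) (hD : DomB R) :
    ∃ x : V, ∀ y, (∀ k ∈ R, k x y = 0) → ∀ ρ ∈ R, ρ x = 0 → ρ y = 0 := by
  classical
  have hf : Finite (Submodule (ZMod 2) (D V)) := inferInstance
  have := Fintype.ofFinite (Submodule (ZMod 2) (D V))
  have hex : ∀ E : Submodule (ZMod 2) (D V), ∃ z, Blk R E → Good R E z := by
    intro E
    by_cases h : Blk R E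
    · obtain ⟨z, hz⟩ := exists_good h
      exact ⟨z, fun _ => hz⟩
    · exact ⟨0, fun h' => absurd h' h⟩
  choose z hz using hex
  obtain ⟨x, hx⟩ := solveB (indB_all hA hL hU hD)
    (Finset.univ.filter fun E : Submodule (ZMod 2) (D V) => Blk R E)
    (fun E hE => (Finset.mem_filter.1 hE).2) z
  refine ⟨x, fun y hy => regular_of_good hA hU hD (fun E hE => ?_) hy⟩
  exact (hz E hE).congr hA (hx E (Finset.mem_filter.2 ⟨Finset.mem_univ _, hE⟩))

end Pool.Agent.H61X
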