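import Pool.Agent.H61X.Perf

/-!
Theorem X (helper61, note 3145), part 2: distinct blocks are disjoint; three dependent blocks are
perfect atoms of the same rank.
-/

set_option linter.unusedSectionVars false
set_option linter.unusedVariables false

namespace Pool.Agent.H61X

open Pool.Agent.ESL Pool.Agent.H34B
open scoped BigOperators

variable {V : Type} [AddCommGroup V] [Module (ZMod 2) V] [Finite V] {R : FS V}

/-! ### alternating forms -/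

theorem sel {k : Fm V} (h : k ≠ 0) : ∃ x y, k x y = 1 := by
  obtain ⟨x, hx⟩ := exists_val h
  by_contra hc
  push Not at hc
  exact hx (LinearMap.ext fun y => zm_ne' (hc x y))

theorem two_le_rk (hA : IsAlt R) {k : Fm V} (hk : k ∈ R) (h : k ≠ 0) : 2 ≤ rk k := by
  obtain ⟨x, y, hxy⟩ := sel h
  by_contra hc
  have h1 : Module.finrank (ZMod 2) (LinearMap.range k) ≤ 1 := by
    unfold rk at hc
    omega
  obtain ⟨v, hv⟩ := finrank_le_one_iff.1 h1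
  obtain ⟨a, ha⟩ := hv ⟨k x, x, rfl⟩
  obtain ⟨b, hb⟩ := hv ⟨k y, y, rfl⟩
  have ha' : a • (v : D V) = k x := congrArg Subtype.val ha
  have hb' : b • (v : D V) = k y := congrArg Subtype.val hb
  have hyx : k y x = 1 := by rw [symm_of hA hk, hxy]
  rcases zm a with rfl | rfl
  · rw [zero_smul] at ha'
    rw [← ha'] at hxy
    exact zero_ne_one hxy
  rcases zm b with rfl | rfl
  · rw [zero_smul] at hb'
    rw [← hb'] at hyx
    exact zero_ne_one hyx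
  rw [one_smul] at ha' hb'
  rw [← ha', hb', hA k hk y] at hxy
  exact zero_ne_one hxy

/-- a form of rank two is determined by two independent values -/
theorem rk_two_val (hA : IsAlt R) {k : Fm V} (hk : k ∈ R) (h : rk k = 2) {x y : V} (hx : k x ≠ 0)
    (hy : k y ≠ 0) (hxy : k x ≠ k y) : k x y = 1 := by
  by_contra hc
  have h0 : k x y = 0 := zm_ne' hc
  -- every value is in `{0, k x, k y, k x + k y}`
  have hli : LinearIndependent (ZMod 2) ![k x, k y] := by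
    rw [LinearIndependent.pair_iff]
    intro s t hst
    rcases zm s with rfl | rfl <;> rcases zm t with rfl | rfl
    · exact ⟨rfl, rfl⟩
    · rw [zero_smul, one_smul, zero_add] at hst
      exact absurd hst hy
    · rw [zero_smul, one_smul, add_zero] at hst
      exact absurd hst hx
    · rw [one_smul, one_smul] at hst
      exact absurd (eq_of_add hst) hxy
  have hsp : Submodule.span (ZMod 2) (Set.range ![k x, k y]) = LinearMap.range k := by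
    apply Submodule.eq_of_le_of_finrank_eq
    · rw [Submodule.span_le]
      rintro _ ⟨i, rfl⟩
      fin_cases i
      · exact ⟨x, rfl⟩
      · exact ⟨y, rfl⟩
    · rw [finrank_span_eq_card hli]
      exact h.symm
  apply hx
  apply LinearMap.ext
  intro z
  have h1 : k z ∈ Submodule.span (ZMod 2) (Set.range ![k x, k y]) := by
    rw [hsp]
    exact ⟨z, rfl⟩
  have h2 : ∀ φ ∈ Submodule.span (ZMod 2) (Set.range ![k x, k y]), φ x = 0 := by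
    intro φ hφ
    induction hφ using Submodule.span_induction with
    | mem φ h =>
      obtain ⟨i, rfl⟩ := h
      fin_cases i
      · exact hA k hk x
      · show k y x = 0
        rw [symm_of hA hk, h0]
    | zero => rfl
    | add a b _ _ ha hb => rw [LinearMap.add_apply, ha, hb, add_zero]
    | smul c a _ ha => rw [LinearMap.smul_apply, ha, smul_zero]
  rw [symm_of hA hk, h2 _ h1]
  rfl

theorem atom_uni {w : Fm V} (hw : PAtom R w) {σ : Fm V} (hσ : σ ∈ R)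
    (hr : ∀ x, σ x ∈ LinearMap.range w) (h0 : σ ≠ 0) : σ = w := by
  obtain ⟨x, hx⟩ := exists_val h0
  apply LinearMap.ext
  intro q
  exact (agree hw hσ hx (hr x) ⟨x, rfl⟩ q (hr q)).symm

/-! ### minimality of blocks -/

theorem sub_A (hA : IsAlt R) {w : Fm V} (hw : PAtom R w) {E : Submodule (ZMod 2) (D V)} (hE : Perf R E)
    (hle : E ≤ LinearMap.range w) (h0 : E ≠ ⊥) : E = LinearMap.range w := by
  apply le_antisymm hle
  obtain ⟨b, hb, hb0⟩ := E.ne_bot_iff.1 h0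
  obtain ⟨x, hx⟩ := hle hb
  intro φ hφ
  apply mem_of_co
  intro h hh
  have h1 : b ∈ Lx R (x + h) := hE b hb hb0 x h hh ⟨w, hw.1, hx⟩
  have h2 := hw.2.2 _ b (hle hb) hb0 h1
  rw [map_add, hx] at h2
  have h3 : w h = 0 := by
    have := congrArg (fun t => b + t) h2
    simpa [add_add_self, add_self'] using this
  obtain ⟨z, rfl⟩ := hφ
  rw [symm_of hA hw.1, h3]
  rfl

theorem wd_ex {η μ : D V} (h0 : η ≠ 0) (h1 : μ ≠ 0) (h2 : μ ≠ η) :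
    (∃ x, wdL η μ x = μ) ∧ ∃ x, wdL η μ x = η := by
  have sep : ∀ a b : D V, a ≠ 0 → b ≠ 0 → a ≠ b → ∃ x, a x = 1 ∧ b x = 0 := by
    intro a b ha hb hab
    have hn : a ∉ Submodule.span (ZMod 2) {b} := by
      intro h
      obtain ⟨c, hc⟩ := Submodule.mem_span_singleton.1 h
      rcases zm c with rfl | rfl
      · rw [zero_smul] at hc
        exact ha hc.symm
      · rw [one_smul] at hc
        exact hab hc.symm
    obtain ⟨x, hx, h⟩ := exists_cosep hn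
    exact ⟨x, h, hx b (Submodule.mem_span_singleton_self b)⟩
  obtain ⟨x, hx1, hx2⟩ := sep η μ h0 h1 (Ne.symm h2)
  obtain ⟨y, hy1, hy2⟩ := sep μ η h1 h0 h2
  refine ⟨⟨x, ?_⟩, ⟨y, ?_⟩⟩
  · rw [wdL_apply, hx1, hx2, one_smul, zero_smul, add_zero]
  · rw [wdL_apply, hy1, hy2, one_smul, zero_smul, zero_add]

theorem sub_T {E E' : Submodule (ZMod 2) (D V)} (hE : BlkT R E) (hE' : Perf R E')
    (hle : E' ≤ E) (h0 : E' ≠ ⊥) : E' = E := by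
  obtain ⟨hP, η, hη, θ, hθ, hη0, hθ0, hne, hw⟩ := hE
  by_contra hc
  obtain ⟨b, hb, hb0⟩ := E'.ne_bot_iff.1 h0
  obtain ⟨μ, hμ, hμ'⟩ : ∃ μ ∈ E, μ ∉ E' := by
    by_contra h
    push Not at h
    exact hc (le_antisymm hle h)
  obtain ⟨h, hh, h1⟩ := exists_cosep hμ'
  rcases zm (η h) with h2 | h2
  · -- `η ∈ L_h`
    have h3 : η ∈ Lx R h := ⟨wdL η μ, hw μ hμ, by rw [wdL_apply, h1, h2, zero_smul, one_smul,
      zero_add]⟩
    have h4 : η ∈ E' := by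
      by_contra h5
      -- if `η ∉ E'` choose `h'` with `η h' = 1`
      obtain ⟨h', hh', h6⟩ := exists_cosep h5
      have h7 : b ∈ Lx R h' := ⟨wdL η b, hw b (hle hb), by
        rw [wdL_apply, h6, hh' b hb, one_smul, zero_smul, add_zero]⟩
      exact hb0 (hE'.zero hh' hb h7)
    exact hη0 (hE'.zero hh h4 h3)
  · have h7 : b ∈ Lx R h := ⟨wdL η b, hw b (hle hb), by
      rw [wdL_apply, h2, hh b hb, one_smul, zero_smul, add_zero]⟩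
    exact hb0 (hE'.zero hh hb h7)

/-- a nonzero perfect block inside a block is the block -/
theorem sub_Blk (hA : IsAlt R) {E E' : Submodule (ZMod 2) (D V)} (hE : Blk R E) (hE' : Perf R E')
    (hle : E' ≤ E) (h0 : E' ≠ ⊥) : E' = E := by
  rcases hE with ⟨w, hw, rfl⟩ | h
  · exact sub_A hA hw hE' hle h0
  · exact sub_T h hE' hle h0

/-- distinct blocks are disjoint -/
theorem Blk.disj (hA : IsAlt R) {E E' : Submodule (ZMod 2) (D V)} (hE : Blk R E)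
    (hE' : Blk R E') (hne : E ≠ E') {b : D V} (hb : b ∈ E) (hb' : b ∈ E') : b = 0 := by
  by_contra h0
  have h1 : E ⊓ E' ≠ ⊥ := (Submodule.ne_bot_iff _).2 ⟨b, ⟨hb, hb'⟩, h0⟩
  have h2 := sub_Blk hA hE ((hE.perf hA).inf (hE'.perf hA)) inf_le_left h1
  have h3 := sub_Blk hA hE' ((hE.perf hA).inf (hE'.perf hA)) inf_le_right h1
  exact hne (h2.symm.trans h3)

/-- a form of minimal rank of a block whose range contains `b` -/
structure MinF (R : FS V) (E : Submodule (ZMod 2) (D V)) (b : D V) (σ : Fm V) : Prop where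
  mem : σ ∈ R
  rg : ∀ x, σ x ∈ E
  im : b ∈ LinearMap.range σ
  min : ∀ τ ∈ R, (∀ x, τ x ∈ E) → b ∈ LinearMap.range τ → rk σ ≤ rk τ
  typ : rk σ = 2 ∨ (PAtom R σ ∧ E = LinearMap.range σ)

theorem rk_wd_le (η μ : D V) : rk (wdL η μ) ≤ 2 := by
  classical
  have h1 : LinearMap.range (wdL η μ) ≤ Submodule.span (ZMod 2) (({η, μ} : Finset (D V)) : Set (D V)) := by
    rintro _ ⟨x, rfl⟩
    rw [wdL_apply]
    refine Submodule.add_mem _ (Submodule.smul_mem _ _ (Submodule.subset_span ?_))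
      (Submodule.smul_mem _ _ (Submodule.subset_span ?_))
    · simp
    · simp
  calc rk (wdL η μ) ≤ _ := Submodule.finrank_mono h1
    _ ≤ ({η, μ} : Finset (D V)).card := finrank_span_finset_le_card _
    _ ≤ 2 := Finset.card_le_two

theorem exists_min (hA : IsAlt R) {E : Submodule (ZMod 2) (D V)} (hE : Blk R E) {b : D V}
    (hb : b ∈ E) (hb0 : b ≠ 0) : ∃ σ, MinF R E b σ := by
  rcases hE with ⟨w, hw, rfl⟩ | ⟨hP, η, hη, θ, hθ, hη0, hθ0, hne, hwd⟩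
  · refine ⟨w, hw.1, fun x => ⟨x, rfl⟩, hb, ?_, Or.inr ⟨hw, rfl⟩⟩
    intro τ hτ hr hbτ
    have h0 : τ ≠ 0 := by
      rintro rfl
      obtain ⟨x, hx⟩ := hbτ
      exact hb0 hx.symm
    rw [atom_uni hw hτ hr h0]
  · have key : ∀ μ ∈ E, μ ≠ 0 → μ ≠ η → b ∈ LinearMap.range (wdL η μ) →
        MinF R E b (wdL η μ) := by
      intro μ hμ hμ0 hμη him
      have hne0 : wdL η μ ≠ 0 := by
        intro h
        rw [h] at him
        obtain ⟨x, hx⟩ := him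
        exact hb0 hx.symm
      have h2 : rk (wdL η μ) = 2 := le_antisymm (rk_wd_le _ _) (two_le_rk hA (hwd μ hμ) hne0)
      refine ⟨hwd μ hμ, ?_, him, ?_, Or.inl h2⟩
      · intro x
        rw [wdL_apply]
        exact E.add_mem (E.smul_mem _ hμ) (E.smul_mem _ hη)
      · intro τ hτ hr hbτ
        rw [h2]
        apply two_le_rk hA hτ
        rintro rfl
        obtain ⟨x, hx⟩ := hbτ
        exact hb0 hx.symm
    by_cases hbη : b = η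
    · subst hbη
      exact ⟨_, key θ hθ hθ0 hne (wd_ex hη0 hθ0 hne).2⟩
    · exact ⟨_, key b hb hb0 hbη (wd_ex hη0 hb0 hbη).1⟩

/-! ### three blocks -/

variable {E₁ E₂ E₃ : Submodule (ZMod 2) (D V)}

/-- the sum of forms of two disjoint blocks -/
theorem pr_left (hA : IsAlt R) (hU : Univ R) (P₁ : Perf R E₁)
    (hd : ∀ b ∈ E₁, b ∈ E₂ → b = 0) {σ₁ σ₂ : Fm V} (h₁ : σ₁ ∈ R) (h₂ : σ₂ ∈ R)
    (r₁ : ∀ x, σ₁ x ∈ E₁) (r₂ : ∀ x, σ₂ x ∈ E₂) : IsPr R E₁ (σ₁ + σ₂) σ₁ := by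
  have h := (pr_zero hA hU P₁ h₂ fun x hx => hd _ hx (r₂ x)).add hA h₁ r₁
  rwa [zero_add, add_comm] at h

theorem rk_sum (hA : IsAlt R) (hU : Univ R) (P₁ : Perf R E₁)
    (hd : ∀ b ∈ E₁, b ∈ E₂ → b = 0) {σ₁ σ₂ : Fm V} (h₁ : σ₁ ∈ R) (h₂ : σ₂ ∈ R)
    (r₁ : ∀ x, σ₁ x ∈ E₁) (r₂ : ∀ x, σ₂ x ∈ E₂) : rk (σ₁ + σ₂) = rk σ₁ + rk σ₂ := by
  have h := (pr_left hA hU P₁ hd h₁ h₂ r₁ r₂).rk_eq
  have e : σ₁ + σ₂ + σ₁ = σ₂ := by rw [add_comm σ₁, add_add_self']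
  rwa [e] at h

theorem mem_sum_range (hA : IsAlt R) (hU : Univ R) (P₁ : Perf R E₁) (P₂ : Perf R E₂)
    (hd : ∀ b ∈ E₁, b ∈ E₂ → b = 0) {σ₁ σ₂ : Fm V} (h₁ : σ₁ ∈ R) (h₂ : σ₂ ∈ R)
    (r₁ : ∀ x, σ₁ x ∈ E₁) (r₂ : ∀ x, σ₂ x ∈ E₂) {b₁ b₂ : D V} (i₁ : b₁ ∈ LinearMap.range σ₁)
    (i₂ : b₂ ∈ LinearMap.range σ₂) : b₁ + b₂ ∈ LinearMap.range (σ₁ + σ₂) := by
  refine Submodule.add_mem _ ((pr_left hA hU P₁ hd h₁ h₂ r₁ r₂).range_le i₁) ?_
  rw [add_comm]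
  exact (pr_left hA hU P₂ (fun b h h' => hd b h' h) h₂ h₁ r₂ r₁).range_le i₂

theorem rk3 (hA : IsAlt R) (hU : Univ R) (P₁ : Perf R E₁) (P₂ : Perf R E₂) (P₃ : Perf R E₃)
    (d12 : ∀ b ∈ E₁, b ∈ E₂ → b = 0) (d13 : ∀ b ∈ E₁, b ∈ E₃ → b = 0)
    (d23 : ∀ b ∈ E₂, b ∈ E₃ → b = 0) {b₁ b₂ b₃ : D V} {σ₁ σ₂ σ₃ : Fm V} (m₁ : MinF R E₁ b₁ σ₁)
    (m₂ : MinF R E₂ b₂ σ₂) (m₃ : MinF R E₃ b₃ σ₃) (h3 : b₃ ∈ E₃) (hs : b₁ + b₂ = b₃) :
    ∃ τ, IsPr R E₃ (σ₁ + σ₂) τ ∧ b₃ ∈ LinearMap.range τ ∧ rk σ₃ ≤ rk τ ∧ rk τ ≤ rk σ₁ := by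
  obtain ⟨τ, hτ⟩ := exists_pr hA hU P₃ (R.add_mem m₁.mem m₂.mem)
  have hb : b₃ ∈ LinearMap.range (σ₁ + σ₂) := by
    rw [← hs]
    exact mem_sum_range hA hU P₁ P₂ d12 m₁.mem m₂.mem m₁.rg m₂.rg m₁.im m₂.im
  have hb' : b₃ ∈ LinearMap.range τ := hτ.mem_range h3 hb
  refine ⟨τ, hτ, hb', m₃.min τ hτ.mem hτ.rg hb', ?_⟩
  have e1 := rk_sum hA hU P₁ d12 m₁.mem m₂.mem m₁.rg m₂.rg
  have e2 := hτ.rk_eq
  have e3 := rk_sum hA hU P₂ d23 m₂.mem hτ.mem m₂.rg hτ.rg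
  obtain ⟨α, hα⟩ := exists_pr hA hU P₁ (R.add_mem m₂.mem hτ.mem)
  have e4 := hα.rk_eq
  have e5 := (hα.add hA m₁.mem m₁.rg).rk_eq
  have e6 : σ₂ + τ + σ₁ = σ₁ + σ₂ + τ := by abel
  have e7 : σ₂ + τ + σ₁ + (α + σ₁) = σ₂ + τ + α := by
    have : σ₂ + τ + σ₁ + (α + σ₁) = σ₂ + τ + α + (σ₁ + σ₁) := by abel
    rw [this, add_self', add_zero]
  rw [e7, e6] at e5
  have e8 := rk_add_le (α + σ₁) σ₁
  rw [add_add_self'] at e8
  omega

theorem no_two (hA : IsAlt R) (d12 : ∀ b ∈ E₁, b ∈ E₂ → b = 0) (d13 : ∀ b ∈ E₁, b ∈ E₃ → b = 0)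
    (d23 : ∀ b ∈ E₂, b ∈ E₃ → b = 0) {σ₁ σ₂ τ : Fm V} (m₁ : σ₁ ∈ R) (m₂ : σ₂ ∈ R)
    (r₁ : ∀ x, σ₁ x ∈ E₁) (r₂ : ∀ x, σ₂ x ∈ E₂) (hτ : IsPr R E₃ (σ₁ + σ₂) τ) (h0 : τ ≠ 0)
    (k₁ : rk σ₁ = 2) (k₂ : rk σ₂ = 2) : False := by
  obtain ⟨y, y', hyy⟩ := sel h0
  obtain ⟨z, hz, h1, h2⟩ := hτ.val y
  obtain ⟨z', hz', h1', h2'⟩ := hτ.val y'
  set x := y + z with hx
  set x' := y' + z' with hx'
  have t1 : τ x = τ y := by rw [hx, map_add, hτ.ker z hz, add_zero]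
  have t2 : τ x' = τ y' := by rw [hx', map_add, hτ.ker z' hz', add_zero]
  have t3 : τ x x' = 1 := by
    rw [t1, symm_of hA hτ.mem, t2, symm_of hA hτ.mem, hyy]
  have t4 : (σ₁ + σ₂) x x' = 1 := by rw [← h1, ← t1, t3]
  -- general facts on `ρ u ∈ E₃`
  have key : ∀ u, (σ₁ + σ₂) u ∈ E₃ → (σ₁ + σ₂) u ≠ 0 → σ₁ u ≠ 0 ∧ σ₂ u ≠ 0 := by
    intro u hu hu0
    constructor
    · intro h
      apply hu0
      rw [LinearMap.add_apply, h, zero_add] at hu ⊢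
      exact d23 _ (r₂ u) hu
    · intro h
      apply hu0
      rw [LinearMap.add_apply, h, add_zero] at hu ⊢
      exact d13 _ (r₁ u) hu
  have n1 : (σ₁ + σ₂) x ≠ 0 := by
    intro h
    rw [h] at t4
    exact zero_ne_one t4
  have n2 : (σ₁ + σ₂) x' ≠ 0 := by
    intro h
    rw [symm_of hA (R.add_mem m₁ m₂), h] at t4
    exact zero_ne_one t4
  have n3 : (σ₁ + σ₂) (x + x') ≠ 0 := by
    intro h
    rw [map_add] at h
    rw [eq_of_add h, hA _ (R.add_mem m₁ m₂)] at t4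
    exact zero_ne_one t4
  have a1 := key x h2 n1
  have a2 := key x' h2' n2
  have a3 := key (x + x') (by rw [map_add]; exact E₃.add_mem h2 h2') n3
  have c1 : σ₁ x x' = 1 := rk_two_val hA m₁ k₁ a1.1 a2.1 (fun h => a3.1 (by
    rw [map_add, h, add_self']))
  have c2 : σ₂ x x' = 1 := rk_two_val hA m₂ k₂ a1.2 a2.2 (fun h => a3.2 (by
    rw [map_add, h, add_self']))
  rw [LinearMap.add_apply, LinearMap.add_apply, c1, c2] at t4
  exact absurd t4 (by decide)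

/-- three dependent blocks are atoms, and one is in the sum of the other two -/
theorem three_atoms (hA : IsAlt R) (hU : Univ R) (B₁ : Blk R E₁) (B₂ : Blk R E₂) (B₃ : Blk R E₃)
    (n12 : E₁ ≠ E₂) (n13 : E₁ ≠ E₃) (n23 : E₂ ≠ E₃) {b₁ b₂ b₃ : D V} (h1 : b₁ ∈ E₁) (h2 : b₂ ∈ E₂)
    (h3 : b₃ ∈ E₃) (z1 : b₁ ≠ 0) (z2 : b₂ ≠ 0) (z3 : b₃ ≠ 0) (hs : b₁ + b₂ = b₃) :
    ∃ w₁ w₂ w₃ : Fm V, PAtom R w₁ ∧ PAtom R w₂ ∧ PAtom R w₃ ∧ E₁ = LinearMap.range w₁ ∧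
      E₂ = LinearMap.range w₂ ∧ E₃ = LinearMap.range w₃ ∧
      LinearMap.range w₃ ≤ LinearMap.range w₁ ⊔ LinearMap.range w₂ := by
  obtain ⟨σ₁, m₁⟩ := exists_min hA B₁ h1 z1
  obtain ⟨σ₂, m₂⟩ := exists_min hA B₂ h2 z2
  obtain ⟨σ₃, m₃⟩ := exists_min hA B₃ h3 z3
  have P₁ := B₁.perf hA
  have P₂ := B₂.perf hA
  have P₃ := B₃.perf hA
  have d12 : ∀ b ∈ E₁, b ∈ E₂ → b = 0 := fun b h h' => B₁.disj hA B₂ n12 h h'
  have d13 : ∀ b ∈ E₁, b ∈ E₃ → b = 0 := fun b h h' => B₁.disj hA B₃ n13 h h'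
  have d23 : ∀ b ∈ E₂, b ∈ E₃ → b = 0 := fun b h h' => B₂.disj hA B₃ n23 h h'
  have s2 : b₂ + b₁ = b₃ := by rw [add_comm, hs]
  have s3 : b₁ + b₃ = b₂ := by rw [← hs, add_add_self]
  have s4 : b₃ + b₂ = b₁ := by rw [← hs, add_add_self']
  obtain ⟨τ, hτ, hbτ, i1, i2⟩ := rk3 hA hU P₁ P₂ P₃ d12 d13 d23 m₁ m₂ m₃ h3 hs
  obtain ⟨τ2, -, -, i3, i4⟩ := rk3 hA hU P₂ P₁ P₃ (fun b h h' => d12 b h' h) d23 d13 m₂ m₁ m₃ h3 s2
  obtain ⟨τ3, -, -, i5, i6⟩ := rk3 hA hU P₁ P₃ P₂ d13 d12 (fun b h h' => d23 b h' h) m₁ m₃ m₂ h2 s3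
  obtain ⟨τ4, -, -, i7, i8⟩ := rk3 hA hU P₃ P₂ P₁ (fun b h h' => d23 b h' h)
    (fun b h h' => d13 b h' h) (fun b h h' => d12 b h' h) m₃ m₂ m₁ h1 s4
  have hτ0 : τ ≠ 0 := by
    rintro rfl
    obtain ⟨x, hx⟩ := hbτ
    exact z3 hx.symm
  have hr : rk σ₁ = rk σ₂ ∧ rk σ₁ = rk σ₃ := by omega
  have hn2 : rk σ₁ ≠ 2 := by
    intro h
    exact no_two hA d12 d13 d23 m₁.mem m₂.mem m₁.rg m₂.rg hτ hτ0 h (by omega)
  have a1 := m₁.typ.resolve_left hn2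
  have a2 := m₂.typ.resolve_left (by omega)
  have a3 := m₃.typ.resolve_left (by omega)
  refine ⟨σ₁, σ₂, σ₃, a1.1, a2.1, a3.1, a1.2, a2.2, a3.2, ?_⟩
  have h4 : τ = σ₃ := atom_uni a3.1 hτ.mem (fun x => a3.2 ▸ hτ.rg x) hτ0
  rw [← h4]
  rintro _ ⟨x, rfl⟩
  obtain ⟨y, hy⟩ := hτ.range_le ⟨x, rfl⟩
  rw [← hy, LinearMap.add_apply]
  exact Submodule.add_mem_sup ⟨y, rfl⟩ ⟨y, rfl⟩

end Pool.Agent.H61X
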