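import Pool.Agent.H34B.Three
import Pool.Agent.H61X.Rk3

/-!
Theorem X (helper61, note 3145), part 3: no three perfect atoms are dependent if every functional in
the sum `I` of two of them dominates an atom (relative version of `H34B/Three`, helper34).
-/

set_option linter.unusedSectionVars false
set_option linter.unusedVariables false

namespace Pool.Agent.H61X

open Pool.Agent.ESL Pool.Agent.H34B
open scoped BigOperators

variable {V : Type} [AddCommGroup V] [Module (ZMod 2) V] [Finite V]

/-- every functional of `I` dominates an atom -/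
def DomI (R : FS V) (I : Submodule (ZMod 2) (D V)) : Prop :=
  ∀ b ∈ I, b ≠ 0 → (∃ x, b ∈ Lx R x) →
    ∃ w, PAtom R w ∧ ∀ r ∈ R, b ∈ LinearMap.range r → LinearMap.range w ≤ LinearMap.range r

/-- every form of `R` with range in `I` is a sum of distinct perfect atoms with smaller range -/
theorem decompI {R : FS V} (hA : IsAlt R) {I : Submodule (ZMod 2) (D V)} (hD : DomI R I) :
    ∀ n : ℕ, ∀ r ∈ R, LinearMap.range r ≤ I → Module.finrank (ZMod 2) (LinearMap.range r) ≤ n →
    ∃ T : Finset (Fm V), (∀ w ∈ T, PAtom R w ∧ LinearMap.range w ≤ LinearMap.range r) ∧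
      r = ∑ w ∈ T, w := by
  classical
  intro n
  induction n with
  | zero =>
    intro r hr hrI hn
    refine ⟨∅, by simp, ?_⟩
    have h1 : LinearMap.range r = ⊥ := Submodule.finrank_eq_zero.1 (Nat.le_zero.1 hn)
    rw [Finset.sum_empty]
    exact LinearMap.range_eq_bot.1 h1
  | succ n ih =>
    intro r hr hrI hn
    by_cases h0 : r = 0
    · exact ⟨∅, by simp, by rw [h0, Finset.sum_empty]⟩
    obtain ⟨x, hx⟩ := exists_val h0
    obtain ⟨w, hw, hle⟩ := hD (r x) (hrI ⟨x, rfl⟩) hx ⟨x, r, hr, rfl⟩
    have h1 := hle r hr ⟨x, rfl⟩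
    obtain ⟨b, hb, hb0⟩ := hw.nz
    have hdis := dom_disj hw hr hb0 hb (h1 hb)
    have hle2 := range_add_le h1
    have hlt : LinearMap.range (r + w) < LinearMap.range r := by
      refine lt_of_le_of_ne hle2 ?_
      intro he
      exact hb0 (hdis b (he ▸ h1 hb) hb)
    have hfr := Submodule.finrank_lt_finrank_of_lt hlt
    obtain ⟨T, hT, hs⟩ := ih (r + w) (R.add_mem hr hw.1) (hle2.trans hrI) (by omega)
    have hwT : w ∉ T := by
      intro hm
      exact hb0 (hdis b ((hT w hm).2 hb) hb)
    refine ⟨insert w T, ?_, ?_⟩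
    · intro a ha
      rcases Finset.mem_insert.1 ha with rfl | ha
      · exact ⟨hw, h1⟩
      · exact ⟨(hT a ha).1, (hT a ha).2.trans hle2⟩
    · rw [Finset.sum_insert hwT, ← hs, add_comm, add_add_self']

variable {R : FS V}

section three

variable (hA : IsAlt R) (hL : Linked R)

include hA in
/-- `σ + w` is an atom if `range σ = I` -/
theorem add_atomI {a b : Fm V} (ha : PAtom R a) (hb : PAtom R b) (hab : a ≠ b)
    (hD : DomI R (LinearMap.range a ⊔ LinearMap.range b)) {s : Fm V} (hs : s ∈ R)
    (hsI : LinearMap.range s = LinearMap.range a ⊔ LinearMap.range b) {w : Fm V} (hw : PAtom R w)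
    (h : LinearMap.range w ≤ LinearMap.range a ⊔ LinearMap.range b) :
    PAtom R (s + w) ∧ LinearMap.range (s + w) ≤ LinearMap.range a ⊔ LinearMap.range b := by
  classical
  have hle : LinearMap.range w ≤ LinearMap.range s := by rw [hsI]; exact h
  have hle2 : LinearMap.range (s + w) ≤ LinearMap.range a ⊔ LinearMap.range b := by
    rw [← hsI]; exact range_add_le hle
  obtain ⟨c, hc, hc0⟩ := hw.nz
  have hdis := dom_disj hw hs hc0 hc (hle hc)
  refine ⟨?_, hle2⟩
  obtain ⟨T, hT, hTs⟩ := decompI hA hD _ _ (R.add_mem hs hw.1) hle2 le_rfl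
  -- `T` is nonempty
  have hne : T.Nonempty := by
    rw [Finset.nonempty_iff_ne_empty]
    rintro rfl
    rw [Finset.sum_empty] at hTs
    have h1 : s = w := eq_of_add hTs
    have h2 : LinearMap.range a ≤ LinearMap.range w := by rw [← h1, hsI]; exact le_sup_left
    have h3 : LinearMap.range b ≤ LinearMap.range w := by rw [← h1, hsI]; exact le_sup_right
    obtain ⟨x, hx, hx0⟩ := ha.nz
    obtain ⟨y, hy, hy0⟩ := hb.nz
    exact hab ((atom_eq hA ha hw hx0 hx (h2 hx)).trans (atom_eq hA hb hw hy0 hy (h3 hy)).symm)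
  obtain ⟨t, ht⟩ := hne
  have hT1 : T = {t} := by
    apply Finset.eq_singleton_iff_unique_mem.2 ⟨ht, ?_⟩
    intro t' ht'
    by_contra hne
    have h1 := span_I hA ha hb hab (hT t ht).1 (hT t' ht').1 (Ne.symm hne)
      ((hT t ht).2.trans hle2) ((hT t' ht').2.trans hle2)
    have h2 : LinearMap.range a ⊔ LinearMap.range b ≤ LinearMap.range (s + w) := by
      rw [← h1]; exact sup_le (hT t ht).2 (hT t' ht').2
    exact hc0 (hdis c (h2 (h hc)) hc)
  rw [hTs, hT1, Finset.sum_singleton]
  exact (hT t ht).1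

include hA hL in
/-- every element of `I` lies in the range of an atom inside `I` -/
theorem coverI {a b c : Fm V} (ha : PAtom R a) (hb : PAtom R b) (hc : PAtom R c) (hab : a ≠ b)
    (hD : DomI R (LinearMap.range a ⊔ LinearMap.range b))
    (hac : a ≠ c) (hbc : b ≠ c) (h : LinearMap.range c ≤ LinearMap.range a ⊔ LinearMap.range b)
    {β : D V} (hβ : β ∈ LinearMap.range a ⊔ LinearMap.range b) (h0 : β ≠ 0) :
    ∃ w, PAtom R w ∧ LinearMap.range w ≤ LinearMap.range a ⊔ LinearMap.range b ∧
      β ∈ LinearMap.range w := by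
  -- the two forms with range `I`
  have hs : LinearMap.range (a + b) = LinearMap.range a ⊔ LinearMap.range b := range_pair hA ha hb hab
  have hs' : LinearMap.range (a + c) = LinearMap.range a ⊔ LinearMap.range b := by
    rw [range_pair hA ha hc hac, sup_comm]
    exact triple hA ha hb hc hab hac hbc h
  have hbc' : LinearMap.range (b + c) = LinearMap.range a ⊔ LinearMap.range b := by
    rw [range_pair hA hb hc hbc]
    exact span_I hA ha hb hab hb hc hbc le_sup_right h
  have hsR := R.add_mem ha.1 hb.1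
  have hsR' := R.add_mem ha.1 hc.1
  obtain ⟨x, hx⟩ : β ∈ LinearMap.range (a + b) := by rw [hs]; exact hβ
  obtain ⟨x', hx'⟩ : β ∈ LinearMap.range (a + c) := by rw [hs']; exact hβ
  obtain ⟨w, hw, hdom⟩ := hD β hβ h0 ⟨x, _, hsR, hx⟩
  have hwI : LinearMap.range w ≤ LinearMap.range a ⊔ LinearMap.range b := by
    rw [← hs]; exact hdom _ hsR ⟨x, hx⟩
  obtain ⟨hw', hw'I⟩ := add_atomI hA ha hb hab hD hsR hs hw hwI
  have hsum : w + ((a + b) + w) = a + b := by
    rw [add_comm (a + b) w, add_add_self]
  by_cases hz : ((a + b) + w) x = 0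
  · refine ⟨w, hw, hwI, x, ?_⟩
    have h1 := congrArg (fun k : Fm V => k x) hsum
    simp only [LinearMap.add_apply] at h1 hz
    have h2 : (a + b) x = β := hx
    rw [LinearMap.add_apply] at h2
    rw [h2] at hz
    exact (eq_of_add hz).symm
  · exfalso
    -- every form with `β` in its range contains `I`
    have hd2 : ∀ r ∈ R, β ∈ LinearMap.range r → LinearMap.range ((a + b) + w) ≤ LinearMap.range r := by
      have h1 := dom_other hA hL hw hw' (x := x) hz (by
        rw [hsum, hx]; exact hdom)
      rw [hsum, hx] at h1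
      exact h1
    obtain ⟨l, hl, l1, l2⟩ := hL _ hsR _ hsR' x x' (hx.trans hx'.symm)
    rw [hx] at l1 l2
    have hlI : LinearMap.range a ⊔ LinearMap.range b ≤ LinearMap.range l := by
      rw [← hs, ← hsum]
      rintro _ ⟨y, rfl⟩
      rw [LinearMap.add_apply]
      exact Submodule.add_mem _ (hdom l hl ⟨x, l1⟩ ⟨y, rfl⟩) (hd2 l hl ⟨x, l1⟩ ⟨y, rfl⟩)
    have hk : l (x + x') = 0 := by rw [map_add, l1, l2, add_self']
    have k1 : (a + b) (x + x') = 0 := by
      have := (range_le_iff (hA _ hsR) (hA _ hl)).1 (hs ▸ hlI)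
      exact this hk
    have k2 : (a + b) x' = β := by
      rw [map_add, hx] at k1
      exact (eq_of_add k1).symm
    have k3 : (b + c) x' = 0 := by
      have e : b + c = (a + b) + (a + c) := by
        rw [add_comm a b, add_assoc, add_add_self]
      rw [e, LinearMap.add_apply, k2, hx', add_self']
    have k4 : (a + b) x' = 0 := by
      have h1 : LinearMap.range (a + b) ≤ LinearMap.range (b + c) := by rw [hs, hbc']
      exact (range_le_iff (hA _ hsR) (hA _ (R.add_mem hb.1 hc.1))).1 h1 k3
    exact h0 (k2 ▸ k4)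

include hA hL in
/-- no atom lies inside the sum of two others -/
theorem no_tripleI {a b c : Fm V} (ha : PAtom R a) (hb : PAtom R b) (hc : PAtom R c) (hab : a ≠ b)
    (hD : DomI R (LinearMap.range a ⊔ LinearMap.range b))
    (hac : a ≠ c) (hbc : b ≠ c) (h : LinearMap.range c ≤ LinearMap.range a ⊔ LinearMap.range b) :
    False := by
  classical
  have : Fintype (D V) := Fintype.ofFinite _
  have : Fintype (Fm V) := Fintype.ofFinite _
  let Om : Finset (Fm V) := Finset.univ.filter (fun w => PAtom R w ∧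
    LinearMap.range w ≤ LinearMap.range a ⊔ LinearMap.range b)
  have hOm : ∀ w, w ∈ Om ↔ PAtom R w ∧ LinearMap.range w ≤ LinearMap.range a ⊔ LinearMap.range b := by
    intro w; simp [Om]
  have hs := range_pair hA ha hb hab
  have hsR := R.add_mem ha.1 hb.1
  have hs0 : a + b ≠ 0 := fun he => hab (eq_of_add he)
  -- the number of atoms is even
  have h1 : ∑ w ∈ Om, (1 : ZMod 2) = 0 := by
    apply Finset.sum_involution (fun w _ => (a + b) + w)
    · intro w hw; decide
    · intro w hw _ he
      apply hs0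
      have := congrArg (fun t => t + w) he
      simpa [add_add_self', add_self'] using this
    · intro w hw
      rw [hOm] at hw ⊢
      exact add_atomI hA ha hb hab hD hsR hs hw.1 hw.2
    · intro w hw
      exact add_add_self _ _
  -- the nonzero elements of `I`
  have h2 : Finset.univ.filter (fun β : D V => β ∈ LinearMap.range a ⊔ LinearMap.range b ∧ β ≠ 0) =
      Om.biUnion (fun w => Finset.univ.filter (fun β : D V => β ∈ LinearMap.range w ∧ β ≠ 0)) := by
    ext β
    simp only [Finset.mem_filter, Finset.mem_univ, true_and, Finset.mem_biUnion]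
    constructor
    · rintro ⟨hβ, h0⟩
      obtain ⟨w, hw, hwI, hβw⟩ := coverI hA hL ha hb hc hab hD hac hbc h hβ h0
      exact ⟨w, (hOm w).2 ⟨hw, hwI⟩, hβw, h0⟩
    · rintro ⟨w, hw, hβw, h0⟩
      exact ⟨((hOm w).1 hw).2 hβw, h0⟩
  have h3 := congrArg (fun t : Finset (D V) => (t.card : ZMod 2)) h2
  rw [Finset.card_biUnion (by
    intro w hw w' hw' hne
    rw [Function.onFun, Finset.disjoint_left]
    intro β hβ hβ'
    simp only [Finset.mem_filter, Finset.mem_univ, true_and] at hβ hβ'
    exact hne (atom_eq hA ((hOm w).1 hw).1 ((hOm w').1 hw').1 hβ.2 hβ.1 hβ'.1)), Nat.cast_sum,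
    Finset.sum_congr rfl (fun w hw => card_nz_odd (LinearMap.range w) ((hOm w).1 hw).1.nz), h1] at h3
  obtain ⟨β, hβ, h0⟩ := ha.nz
  rw [card_nz_odd _ ⟨β, Submodule.mem_sup_left hβ, h0⟩] at h3
  exact one_ne_zero h3

end three

end Pool.Agent.H61X
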